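import Pool.Agent.H93.Reich.Power

set_option autoImplicit false
set_option maxHeartbeats 400000

/-!
# MP_e93574_an: weakly contractive set-valued maps; the gauges with the fixed point property
-/

namespace Pool.Agent.Results.MP_e93574_an.ExactGauges

open Filter Topology
open scoped NNReal

/-- The set `Γ`. -/
structure InGamma (γ : ℝ≥0 → ℝ≥0) : Prop where
  cont : Continuous γ
  mono : Monotone γ
  sub : ∀ s t, γ (s + t) ≤ γ s + γ t
  zero : ∀ t, γ t = 0 ↔ t = 0

/-- The class `𝒜`. -/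
def InA (θ : ℝ≥0 → ℝ≥0) : Prop :=
  ∃ ε₀ : ℝ≥0, 0 < ε₀ ∧ ∃ γ, InGamma γ ∧ ∀ t, θ t ≤ ε₀ → γ t ≤ θ t

/-- Nonempty closed bounded sets. -/
def CB {X : Type*} [MetricSpace X] (A : Set X) : Prop :=
  A.Nonempty ∧ IsClosed A ∧ Bornology.IsBounded A

/-- `θ ∈ 𝒜` is at least `κ min (t, 1)` for some `κ ∈ (0, 1 / 2]`. -/
theorem inA_lower {θ : ℝ≥0 → ℝ≥0} (hθ : InA θ) :
    ∃ κ : ℝ≥0, 0 < κ ∧ κ ≤ 1 ∧ ∀ t, κ * min t 1 ≤ θ t := by
  obtain ⟨ε₀, hε, γ, hγ, h⟩ := hθ
  have hγ1 : 0 < γ 1 := pos_iff_ne_zero.2 fun e => one_ne_zero ((hγ.zero 1).1 e)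
  have hmul : ∀ (n : ℕ) t, γ (n * t) ≤ n * γ t := by
    intro n t
    induction n with
    | zero => simp [(hγ.zero 0).2 rfl]
    | succ n ih =>
      push_cast
      rw [add_mul, one_mul, add_mul, one_mul]
      exact (hγ.sub _ _).trans (add_le_add_left ih _)
  have hlow : ∀ t, t ≤ 1 → γ 1 / 2 * t ≤ γ t := by
    intro t ht
    rcases eq_or_lt_of_le (zero_le (a := t)) with h0 | h0
    · rw [← h0]; simp
    · have h0' : (0 : ℝ) < t := NNReal.coe_pos.2 h0
      have ht' : (t : ℝ) ≤ 1 := by exact_mod_cast ht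
      obtain ⟨n, hn1, hn2⟩ : ∃ n : ℕ, 1 ≤ (n : ℝ) * t ∧ (n : ℝ) * t ≤ 2 := by
        refine ⟨⌈1 / (t : ℝ)⌉₊, ?_, ?_⟩
        · have := Nat.le_ceil (1 / (t : ℝ))
          rwa [div_le_iff₀ h0'] at this
        · have := (Nat.ceil_lt_add_one (show 0 ≤ 1 / (t : ℝ) by positivity)).le
          have h3 := mul_le_mul_of_nonneg_right this h0'.le
          rw [add_mul, one_mul, div_mul_cancel₀ _ h0'.ne'] at h3
          linarith
      have h1 : γ 1 ≤ n * γ t := (hγ.mono (by rw [← NNReal.coe_le_coe]; push_cast; exact hn1)).trans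
        (hmul n t)
      rw [← NNReal.coe_le_coe] at h1 ⊢
      push_cast at h1 ⊢
      have h4 := mul_le_mul_of_nonneg_right h1 h0'.le
      have h5 := mul_le_mul_of_nonneg_right hn2 (γ t).coe_nonneg
      nlinarith
  refine ⟨min (min ε₀ (γ 1 / 2)) 1, lt_min (lt_min hε (by positivity)) one_pos,
    min_le_right _ _, fun t => ?_⟩
  by_cases hc : θ t ≤ ε₀
  · refine le_trans ?_ (h t hc)
    rcases le_total t 1 with h1 | h1
    · rw [min_eq_left h1]
      refine le_trans ?_ (hlow t h1)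
      gcongr
      exact (min_le_left _ _).trans (min_le_right _ _)
    · rw [min_eq_right h1, mul_one]
      refine le_trans ((min_le_left _ _).trans (min_le_right _ _)) ?_
      refine le_trans ?_ (hγ.mono h1)
      exact half_le_self zero_le
  · refine le_trans ?_ (not_le.1 hc).le
    calc min (min ε₀ (γ 1 / 2)) 1 * min t 1 ≤ ε₀ * 1 :=
          mul_le_mul' ((min_le_left _ _).trans (min_le_left _ _)) (min_le_right _ _)
      _ = ε₀ := mul_one _

/-- fixed points for the power gauges -/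
theorem power_pos.{u} {κ : ℝ≥0} {p : ℝ} (h0 : 0 < κ) (hκ : κ ≤ 1) (hp : 1 ≤ p) (hp2 : p < 2)
    (hκp : (κ : ℝ) * p ≤ 1)
    (X : Type u) [MetricSpace X] [CompleteSpace X] [Nonempty X] (T : X → Set X)
    (hT : ∀ x, CB (T x))
    (hH : ∀ x y, Metric.hausdorffDist (T x) (T y) ≤ dist x y - κ * (min (dist x y) 1) ^ p) :
    ∃ x, x ∈ T x := by
  obtain ⟨x0⟩ := ‹Nonempty X›
  obtain ⟨y0, hy0⟩ := (hT x0).1
  obtain ⟨z, hz, -⟩ := H93.Reich.fixed_point_near (H93.Reich.g_mono hκ hp hκp)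
    (fun t => (H93.Reich.g_cont hp).continuousWithinAt) (H93.Reich.g_sum h0 hκ hp hp2) X T hT
    (fun x y => by rw [H93.Reich.g_coe hκ hp, coe_nndist]; exact hH x y) x0 y0 hy0 1 one_pos
  exact ⟨z, hz⟩

/-- **Fixed points of weakly contractive set-valued maps; which gauges are good.** -/
theorem result.{u} :
    -- the answer to Q1 is yes
    (∀ θ : ℝ≥0 → ℝ≥0, InA θ →
      ∀ (X : Type u) [MetricSpace X] [CompleteSpace X] [Nonempty X] (T : X → Set X),
        (∀ x, CB (T x)) →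
        (∀ x y, Metric.hausdorffDist (T x) (T y) ≤ dist x y - θ (nndist x y)) →
        ∃ x, x ∈ T x) ∧
    -- summable iterates give fixed points, at a controlled place
    (∀ φ : ℝ≥0 → ℝ≥0, Monotone φ → (∀ t, ContinuousWithinAt φ (Set.Ici t) t) →
      (∀ t, Summable fun n => φ^[n] t) →
      ∀ (X : Type u) [MetricSpace X] [CompleteSpace X] (T : X → Set X),
        (∀ x, CB (T x)) →
        (∀ x y, Metric.hausdorffDist (T x) (T y) ≤ φ (nndist x y)) →
        ∀ x₀ y₀, y₀ ∈ T x₀ → ∀ ε : ℝ, 0 < ε →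
          ∃ z, z ∈ T z ∧ dist x₀ z ≤ ∑' n, ((φ^[n] (nndist x₀ y₀) : ℝ≥0) : ℝ) + ε) ∧
    -- and every other nondecreasing gauge is bad, on a bounded space
    (∀ φ : ℝ≥0 → ℝ≥0, Monotone φ → (∃ t, ¬ Summable fun n => φ^[n] t) →
      ∃ (X : Type) (_ : MetricSpace X) (_ : CompleteSpace X) (_ : Nonempty X) (T : X → Set X),
        Bornology.IsBounded (Set.univ : Set X) ∧ (∀ x, CB (T x)) ∧
        (∀ x y, Metric.hausdorffDist (T x) (T y) ≤ φ (nndist x y)) ∧ ∀ x, x ∉ T x) ∧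
    -- the powers: the critical exponent is `2`
    (∀ κ : ℝ, 0 < κ → κ ≤ 1 / 2 → ∀ p : ℝ, 1 ≤ p →
      ((∀ (X : Type) [MetricSpace X] [CompleteSpace X] [Nonempty X] (T : X → Set X),
        (∀ x, CB (T x)) →
        (∀ x y, Metric.hausdorffDist (T x) (T y) ≤ dist x y - κ * (min (dist x y) 1) ^ p) →
        ∃ x, x ∈ T x) ↔ p < 2)) := by
  refine ⟨?_, ?_, ?_, ?_⟩
  · intro θ hθ X _ _ _ T hT hH
    obtain ⟨κ, h0, hκ, hlow⟩ := inA_lower hθ
    refine power_pos h0 hκ le_rfl one_lt_two (by rw [mul_one]; exact_mod_cast hκ) X T hT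
      fun x y => (hH x y).trans ?_
    rw [Real.rpow_one]
    have := NNReal.coe_le_coe.2 (hlow (nndist x y))
    push_cast at this
    linarith
  · intro φ hm hc hs X _ _ T hT hH x₀ y₀ hy₀ ε hε
    exact H93.Reich.fixed_point_near hm hc hs X T hT hH x₀ y₀ hy₀ ε hε
  · intro φ hm ⟨t, ht⟩
    obtain ⟨X, i1, i2, i3, T, hb, hT, hH, hx⟩ := H93.Reich.counter hm t ht
    exact ⟨X, i1, i2, i3, T, hb, fun x => ⟨(hT x).1, (hT x).2, hb.subset (Set.subset_univ _)⟩,
      hH, hx⟩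
  · intro κ h0 hκ p hp
    constructor
    · intro hfp
      by_contra hp2
      push Not at hp2
      lift κ to ℝ≥0 using h0.le
      have hκ' : κ ≤ 1 / 2 := by
        rw [← NNReal.coe_le_coe]; push_cast; exact hκ
      have hκ1 : κ ≤ 1 := by
        rw [← NNReal.coe_le_coe]; push_cast; linarith
      obtain ⟨X, i1, i2, i3, T, hb, hT, hH, hx⟩ := H93.Reich.counter
        (H93.Reich.g_mono hκ1 one_le_two (by linarith)) 1 (H93.Reich.g_two_not hκ')
      obtain ⟨z, hz⟩ := hfp X T (fun x => ⟨(hT x).1, (hT x).2, hb.subset (Set.subset_univ _)⟩)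
        (fun x y => by
          refine (hH x y).trans ?_
          rw [H93.Reich.g_coe hκ1 one_le_two, coe_nndist]
          have h1 : (min (dist x y) 1) ^ p ≤ (min (dist x y) 1) ^ (2 : ℝ) := by
            rcases eq_or_lt_of_le (le_min (dist_nonneg (x := x) (y := y)) zero_le_one) with h | h
            · rw [← h, Real.zero_rpow (by linarith), Real.zero_rpow (by norm_num)]
            · exact Real.rpow_le_rpow_of_exponent_ge h (min_le_right _ _) hp2
          have := mul_le_mul_of_nonneg_left h1 κ.coe_nonneg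
          linarith)
      exact hx z hz
    · intro hp2 X _ _ _ T hT hH
      lift κ to ℝ≥0 using h0.le
      refine power_pos (NNReal.coe_pos.1 h0) ?_ hp hp2 (by nlinarith) X T hT hH
      rw [← NNReal.coe_le_coe]; push_cast; linarith

end Pool.Agent.Results.MP_e93574_an.ExactGauges
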